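import Pool.Agent.Y344.KD.Final
/-!
# Single levels become linear after the deletion of a few lines

The lines are `y = a l * x + B l`, `l : Fin n`. Definitions:

* `Simple a B`: no two of the lines coincide and no three pass through a common point (parallel
  lines are allowed); `level a B k x`: the height of the `(k+1)`-st lowest line above `x`;
  `psi a B k`: the number of abscissae near which the `k`-level does not follow a single line, i.e.
  the number of vertices of the `k`-level (`Pool/Agent/Results/MP_a08d0a_co/SmoothedLevel.lean`),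
* `sub f R`: for a set `R` of indices, the family `f` restricted to `R`, listed in increasing order
  of the indices (`Pool/Agent/Y344/KD/Lines.lean`); `sub a R`, `sub B R` are the slopes and the
  intercepts of the lines with index in `R`.
-/

set_option autoImplicit false

open Finset

namespace Pool.Agent.Results.MP_a08d0a_co.FewDeletions

open Pool.Agent.Results.MP_a08d0a_co.SmoothedLevel (Simple psi)

open Pool.Agent.Y344.KD (sub)

/-- Let `n` lines be given, no two equal and no three concurrent.
1. For every `k` and every `0 < δ ≤ 1` one can delete at most `δ n` of the lines so that the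
   `k`-level of the remaining lines has at most `8000 n min (k + 1) (1 / δ) ^ (1 / 3)` vertices.
2. For every finite set `K` of levels one can delete at most `δ n` lines so that the total number of
   vertices of these levels of the remaining lines is at most
   `8000 n ∑_{k ∈ K} min (k + 1) (1 / δ) ^ (1 / 3)`. -/
theorem result : ∀ (n : ℕ) (a B : Fin n → ℝ), Simple a B → ∀ δ : ℝ, 0 < δ → δ ≤ 1 →
    (∀ k : ℕ, ∃ R : Finset (Fin n), (1 - δ) * n ≤ #R ∧
      (k < #R → psi (sub a R) (sub B R) k ≠ ⊤ ∧
        ((psi (sub a R) (sub B R) k).toNat : ℝ) ≤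
          8000 * n * (min ((k : ℝ) + 1) (1 / δ)) ^ (1 / 3 : ℝ))) ∧
    (∀ K : Finset ℕ, ∃ R : Finset (Fin n), (1 - δ) * n ≤ #R ∧
      (∀ k < #R, psi (sub a R) (sub B R) k ≠ ⊤) ∧
      ∑ k ∈ K with k < #R, ((psi (sub a R) (sub B R) k).toNat : ℝ) ≤
        8000 * n * ∑ k ∈ K, (min ((k : ℝ) + 1) (1 / δ)) ^ (1 / 3 : ℝ)) := by
  intro n a B hS δ h0 h1
  refine ⟨?_, fun K => Pool.Agent.Y344.KD.few_deletions hS K h0 h1⟩
  intro k
  obtain ⟨R, hR, h2, h3⟩ := Pool.Agent.Y344.KD.few_deletions hS {k} h0 h1
  refine ⟨R, hR, fun hk => ⟨h2 k hk, ?_⟩⟩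
  rw [sum_singleton] at h3
  refine le_trans (le_of_eq ?_) h3
  rw [Finset.filter_singleton, if_pos hk, sum_singleton]

end Pool.Agent.Results.MP_a08d0a_co.FewDeletions
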