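import Pool.Agent.Y375.FD.Low
import Pool.Agent.Y375.FD.Upper

/-!
# A single level of an arrangement of lines with few directions

`height`, `level`, `kLevel`, `IsVertex` and `complexity` are defined in
`Pool/Agent/KLev/Levels.lean` (namespace `KLev.Levels`): a line is a pair (slope, intercept), the
`k`-level is the closure of the set of points on the lines with exactly `k` lines strictly below,
and its complexity is the number of the points where it passes from one line to another.
-/

namespace Pool.Agent.Results.MP_a08d0a_co.FewDirections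

open KLev.Levels

/-- the number of distinct slopes of the lines of `Γ` -/
noncomputable def directions (Γ : Finset (ℝ × ℝ)) : ℕ :=
  open Classical in (Γ.image Prod.fst).card

/-- no three lines of `Γ` pass through a common point -/
def NoThree (Γ : Finset (ℝ × ℝ)) : Prop :=
  ∀ l ∈ Γ, ∀ m ∈ Γ, ∀ j ∈ Γ, l ≠ m → l ≠ j → m ≠ j →
    ∀ x : ℝ, ¬ (height l x = height m x ∧ height m x = height j x)

/-- **Theorem.** The maximal complexity of a `k`-level of `n` lines with at most `D` distinct slopes
lies between `D ^ (1/70) * min (k, n - k) / 4` (for `min (k, n - k)` large in terms of `D`) and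
`(D - 1) * (2 * min (k, n - 1 - k) + 1)` (always). -/
theorem result :
    (∀ (Γ : Finset (ℝ × ℝ)) (k : ℕ), complexity Γ k ≤
      (directions Γ - 1) * (2 * min k (Γ.card - 1 - k) + 1)) ∧
    ∀ D : ℕ, 2 ≤ D → ∃ k₀ : ℕ, ∀ n k : ℕ, k₀ ≤ k → k + k₀ ≤ n →
      ∃ Γ : Finset (ℝ × ℝ), Γ.card = n ∧ directions Γ ≤ D ∧ NoThree Γ ∧
        1 / 4 * (D : ℝ) ^ ((1:ℝ) / 70) * (min k (n - k) : ℕ) ≤ complexity Γ k := by
  classical
  constructor
  · intro Γ k
    unfold directions
    convert Pool.Agent.Y375.FD.upper Γ k
  · intro D hD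
    obtain ⟨k₀, h⟩ := Pool.Agent.Y375.FD.lower D hD
    refine ⟨k₀, fun n k h1 h2 => ?_⟩
    obtain ⟨Γ, g1, g2, g3, g4⟩ := h n k h1 h2
    refine ⟨Γ, g1, ?_, g3, g4⟩
    unfold directions
    convert g2

end Pool.Agent.Results.MP_a08d0a_co.FewDirections
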