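import Pool.Agent.Y344.KD.Final
/-!
# The complexity of a level after random deletions of lines

The lines are `y = a l * x + B l`, `l : Fin n`. Definitions:

* `Simple a B`: no two of the lines coincide and no three pass through a common point (parallel
  lines are allowed); `level a B k x`: the height of the `(k+1)`-st lowest line above `x`;
  `psi a B k`: the number of abscissae near which the `k`-level does not follow a single line, i.e.
  the number of vertices of the `k`-level (`Pool/Agent/Results/MP_a08d0a_co/SmoothedLevel.lean`),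
* `sub f R`: for a set `R` of indices, the family `f` restricted to `R`, listed in increasing order
  of the indices (`Pool/Agent/Y344/KD/Lines.lean`); `sub a Dᶜ`, `sub B Dᶜ` are the slopes and the
  intercepts of the lines that remain after the deletion of the lines with index in `D`.
-/

set_option autoImplicit false

open Finset

namespace Pool.Agent.Results.MP_a08d0a_co.RandomDeletions

open Pool.Agent.Results.MP_a08d0a_co.SmoothedLevel (Simple psi)

open Pool.Agent.Y344.KD (sub)

/-- Let `n` lines be given, no two equal and no three concurrent.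
1. Delete every line independently with probability `r`, `0 < r ≤ 1 / 2`. The expected number of
   vertices of the `k`-level of the remaining lines (counted as `0` if at most `k` lines remain) is
   at most `2000 n ((k + 1) / r) ^ (1 / 6)`.
2. The average over all `2 ^ n` sub-arrangements of the number of vertices of the `k`-level is at
   most `2500 n (k + 1) ^ (1 / 6)`. -/
theorem result : ∀ (n : ℕ) (a B : Fin n → ℝ), Simple a B → ∀ k : ℕ,
    (∀ D : Finset (Fin n), k < #Dᶜ → psi (sub a Dᶜ) (sub B Dᶜ) k ≠ ⊤) ∧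
    (∀ r : ℝ, 0 < r → r ≤ 1 / 2 →
      ∑ D : Finset (Fin n) with k < #Dᶜ,
        r ^ #D * (1 - r) ^ (n - #D) * (psi (sub a Dᶜ) (sub B Dᶜ) k).toNat ≤
        2000 * n * (((k : ℝ) + 1) / r) ^ (1 / 6 : ℝ)) ∧
    (∑ D : Finset (Fin n) with k < #Dᶜ, ((psi (sub a Dᶜ) (sub B Dᶜ) k).toNat : ℝ)) / 2 ^ n ≤
        2500 * n * ((k : ℝ) + 1) ^ (1 / 6 : ℝ) := by
  intro n a B hS k
  refine ⟨(Pool.Agent.Y344.KD.random_deletions hS k (r := 1 / 2) (by norm_num) le_rfl).1,
    fun r h0 h1 => (Pool.Agent.Y344.KD.random_deletions hS k h0 h1).2, ?_⟩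
  have h := (Pool.Agent.Y344.KD.random_deletions hS k (r := 1 / 2) (by norm_num) le_rfl).2
  have e1 : ∑ D : Finset (Fin n) with k < #Dᶜ,
      (1 / 2 : ℝ) ^ #D * (1 - 1 / 2) ^ (n - #D) * (psi (sub a Dᶜ) (sub B Dᶜ) k).toNat =
      (∑ D : Finset (Fin n) with k < #Dᶜ, ((psi (sub a Dᶜ) (sub B Dᶜ) k).toNat : ℝ)) / 2 ^ n := by
    rw [sum_div]
    apply sum_congr rfl
    intro D _
    have hD : #D ≤ n := by simpa using card_le_univ D
    rw [show (1 - 1 / 2 : ℝ) = 1 / 2 by norm_num, ← pow_add, Nat.add_sub_cancel' hD]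
    rw [one_div, inv_pow]
    ring
  rw [e1] at h
  refine h.trans ?_
  have hk0 : (0 : ℝ) < (k : ℝ) + 1 := by positivity
  have e2 : (((k : ℝ) + 1) / (1 / 2)) ^ (1 / 6 : ℝ) ≤ 5 / 4 * ((k : ℝ) + 1) ^ (1 / 6 : ℝ) := by
    rw [Real.div_rpow hk0.le (by norm_num)]
    have e3 : (4 / 5 : ℝ) ≤ (1 / 2) ^ (1 / 6 : ℝ) := by
      have : (4 / 5 : ℝ) ^ 6 ≤ ((1 / 2 : ℝ) ^ (1 / 6 : ℝ)) ^ 6 := by
        rw [← Real.rpow_natCast ((1 / 2 : ℝ) ^ (1 / 6 : ℝ)), ← Real.rpow_mul (by norm_num)]
        norm_num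
      exact le_of_pow_le_pow_left₀ (by norm_num) (by positivity) this
    rw [div_le_iff₀ (by positivity)]
    have : 0 ≤ ((k : ℝ) + 1) ^ (1 / 6 : ℝ) := by positivity
    nlinarith
  have hn0 : (0 : ℝ) ≤ n := Nat.cast_nonneg n
  calc 2000 * n * (((k : ℝ) + 1) / (1 / 2)) ^ (1 / 6 : ℝ) ≤
        2000 * n * (5 / 4 * ((k : ℝ) + 1) ^ (1 / 6 : ℝ)) := by gcongr
    _ = _ := by ring

end Pool.Agent.Results.MP_a08d0a_co.RandomDeletions
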